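import Pool.Agent.Helper75.PX.Hand2

/-!
# Degree six without roots of unity

For every field `F` of characteristic different from 2 and 3, every central simple algebra of
degree six (dimension 36) over an extension `K` of `F` is obtained by extension of scalars
from a central simple algebra over an intermediate field of transcendence degree at most three.
-/

set_option autoImplicit false

universe u

open Module TensorProduct

namespace Pool.Agent.Helper75.Kept.DegreeSix

/-- `ed_F(PGL_6) ≤ 3` -/
theorem result (F K A : Type u) [Field F] [Field K] [Algebra F K]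
    [Ring A] [Algebra K A] [Algebra.IsCentral K A] [IsSimpleRing A]
    (h2 : (2 : F) ≠ 0) (h3 : (3 : F) ≠ 0) (hA : finrank K A = 36) :
    ∃ (L : IntermediateField F K) (B : Type u) (_ : Ring B) (_ : Algebra L B),
      Algebra.trdeg F L ≤ 3 ∧ Algebra.IsCentral L B ∧ IsSimpleRing B ∧ finrank L B = 36 ∧
      Nonempty ((K ⊗[L] B) ≃ₐ[K] A) :=
  Pool.Agent.Helper75.PX.st_M6 F K A h2 h3 hA

end Pool.Agent.Helper75.Kept.DegreeSix
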