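import Mathlib

set_option autoImplicit false

namespace Pool.Agent.Helper75.Kept.NoSkewGap

universe u v w

/-- Restriction of scalars from a division ring `D` to a field `F` mapping into `D`. -/
theorem restrict {L : Type u} [Lattice L] {D : Type v} [DivisionRing D]
    {V : Type w} [AddCommGroup V] [Module D V] (F : Type) [Field F] [Algebra F D]
    (f : LatticeHom L (Submodule D V)) (hf : Function.Injective f) :
    ∃ (_ : Module F V) (g : LatticeHom L (Submodule F V)), Function.Injective g := by
  let _ : Module F V := Module.compHom V (algebraMap F D)
  have _ : IsScalarTower F D V :=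
    ⟨fun a b x => by
      rw [Algebra.smul_def, mul_smul]
      rfl⟩
  refine ⟨inferInstance,
    { toFun := fun x => (f x).restrictScalars F
      map_sup' := fun a b => by simp
      map_inf' := fun a b => by simp }, ?_⟩
  intro a b h
  exact hf (Submodule.restrictScalars_injective F D V h)

/-- Every lattice that embeds into the subspace lattice of a left vector space `V` over a
division ring also embeds into the subspace lattice of a vector space over a (commutative)
field. The vector space can be taken to be `V` with a structure over a prime field. -/
theorem result (L : Type u) [Lattice L] (D : Type v) [DivisionRing D]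
    (V : Type w) [AddCommGroup V] [Module D V]
    (h : ∃ f : LatticeHom L (Submodule D V), Function.Injective f) :
    ∃ (F : Type) (_ : Field F) (_ : Module F V),
      (∀ K : Subfield F, K = ⊤) ∧
      ∃ g : LatticeHom L (Submodule F V), Function.Injective g := by
  obtain ⟨f, hf⟩ := h
  obtain ⟨p, hp⟩ := CharP.exists D
  rcases CharP.char_is_prime_or_zero D p with hpp | hp0
  · have _ : Fact p.Prime := ⟨hpp⟩
    let _ : Algebra (ZMod p) D := ZMod.algebra D p
    obtain ⟨m, g, hg⟩ := restrict (ZMod p) f hf
    exact ⟨ZMod p, inferInstance, m, fun K => Subsingleton.elim _ _, g, hg⟩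
  · subst hp0
    have _ : CharZero D := CharP.charP_to_charZero D
    obtain ⟨m, g, hg⟩ := restrict ℚ f hf
    exact ⟨ℚ, inferInstance, m, fun K => Subsingleton.elim _ _, g, hg⟩

end Pool.Agent.Helper75.Kept.NoSkewGap
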